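import Pool.Agent.Helper97.Nag.Goals

/-!
# Project NAG, packet LPR: the parameters, regular case
-/

set_option autoImplicit false

noncomputable section

namespace Pool.Agent.Helper54.Nag.LPR

open Pool.Agent.Helper97.Nag Filter Topology

/-- the bad values of `eta` are countable -/
theorem bad_countable (k r d m : ℕ) (Om : ℝ) (hk : 0 < k) (hkm : k * m < d) :
    {eta : ℝ | ∃ j : ℕ, k * j < d ∧ ∃ (l : ℕ) (n : ℤ),
      Aj k d m Om eta j + l * ((kap k d m j : ℝ) / r) = n}.Countable := by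
  have h : {eta : ℝ | ∃ j : ℕ, k * j < d ∧ ∃ (l : ℕ) (n : ℤ),
      Aj k d m Om eta j + l * ((kap k d m j : ℝ) / r) = n} ⊆
      ⋃ j : ℕ, ⋃ l : ℕ, ⋃ n : ℤ, {eta : ℝ | k * j < d ∧
        Aj k d m Om eta j + l * ((kap k d m j : ℝ) / r) = n} := by
    rintro eta ⟨j, hj, l, n, h⟩
    simp only [Set.mem_iUnion]
    exact ⟨j, l, n, hj, h⟩
  refine Set.Countable.mono h ?_
  refine Set.countable_iUnion fun j => Set.countable_iUnion fun l => Set.countable_iUnion fun n => ?_
  apply Set.Subsingleton.countable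
  rintro a ⟨hj, ha⟩ b ⟨_, hb⟩
  have hk' : (0 : ℝ) < k := by exact_mod_cast hk
  have h1 : ((max j m : ℕ) : ℝ) < (d : ℝ) / k := by
    rw [lt_div_iff₀ hk']
    have : max j m * k < d := by
      rcases le_total j m with h | h
      · rw [max_eq_right h, mul_comm]; exact hkm
      · rw [max_eq_left h, mul_comm]; exact hj
    exact_mod_cast this
  unfold Aj at ha hb
  have h2 : ((d : ℝ) / k - ((max j m : ℕ) : ℝ)) * (a - b) = 0 := by linarith
  rcases mul_eq_zero.mp h2 with h3 | h3
  · linarith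
  · linarith

theorem t : S_LPR := by
  intro k r p d m hk hr hrp hm hkm hyp
  have hk' : (0 : ℝ) < k := by
    have : 0 < k := by omega
    exact_mod_cast this
  have hr' : (0 : ℝ) < r := by exact_mod_cast hr
  have hm' : (1 : ℝ) ≤ m := by exact_mod_cast hm
  have hp : 1 ≤ p := by
    rcases Nat.eq_zero_or_pos p with h | h
    · rw [h, mul_zero] at hrp
      have : 0 < k ^ 2 := by positivity
      omega
    · exact h
  have hp' : (1 : ℝ) ≤ p := by exact_mod_cast hp
  set T : ℝ := (d : ℝ) / k with hT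
  have hTk : (d : ℝ) = k * T := by rw [hT]; field_simp
  have hTm : (m : ℝ) < T := by
    rw [hT, lt_div_iff₀ hk']
    have : m * k < d := by rw [mul_comm]; exact hkm
    exact_mod_cast this
  have hrpR : (r : ℝ) * p = (k : ℝ) ^ 2 := by exact_mod_cast hrp
  have hypR : (k : ℝ) * ((k : ℝ) ^ 2 + r) * (m : ℝ) ^ 2 + k * r * m + r * d ≤ k * (d : ℝ) ^ 2 := by
    exact_mod_cast hyp
  -- the main inequality
  have main : (m : ℝ) ^ 2 + m + T ≤ p * (T - m) * (T + m) := by
    rw [hTk] at hypR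
    have h1 : (k * r : ℝ) * ((m : ℝ) ^ 2 + m + T) ≤ (k * r : ℝ) * (p * (T - m) * (T + m)) := by
      have h2 : (k * r : ℝ) * (p * (T - m) * (T + m)) = k * (r * p) * (T ^ 2 - m ^ 2) := by ring
      rw [h2, hrpR]
      nlinarith
    exact le_of_mul_le_mul_left h1 (by positivity)
  set a : ℝ := p * (T - m) with ha
  have ha1 : 1 < a := by
    by_contra hcon
    push Not at hcon
    have : a * (T + m) ≤ 1 * (T + m) := mul_le_mul_of_nonneg_right hcon (by linarith)
    nlinarith
  set rho1 : ℝ := (a - 1) / m with hrho1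
  have hrho1pos : 0 < rho1 := div_pos (by linarith) (by linarith)
  have hpr : (0 : ℝ) < rho1 + p := by linarith
  have hq : (p : ℝ) / (rho1 + p) < 1 := by rw [div_lt_one hpr]; linarith
  have hq0 : 0 < (p : ℝ) / (rho1 + p) := div_pos (by linarith) hpr
  set c : ℝ := ((p : ℝ) / (rho1 + p) + 1) / 2 with hc
  have hc1 : c < 1 := by rw [hc]; linarith
  have hc0 : 0 < c := by rw [hc]; linarith
  have hcp : (p : ℝ) < (rho1 + p) * c := by
    have h1 : (p : ℝ) / (rho1 + p) < c := by rw [hc]; linarith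
    have h2 := mul_lt_mul_of_pos_left h1 hpr
    rwa [mul_div_cancel₀ _ hpr.ne'] at h2
  set rho : ℝ := (a - c) / m with hrho
  have hm0 : (0 : ℝ) < m := by linarith
  have hrhom : rho * m = a - c := by rw [hrho]; field_simp
  have hrho1m : rho1 * m = a - 1 := by rw [hrho1]; field_simp
  have hrr : rho1 < rho := by
    have : rho1 * m < rho * m := by rw [hrhom, hrho1m]; linarith
    exact lt_of_mul_lt_mul_right this hm0.le
  have hrho0 : 0 < rho := by linarith
  -- the strict inequalities at eta = 0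
  have e2 : 0 < ((p : ℝ) - 0) * (T - m) - rho * m := by
    rw [sub_zero, ← ha, hrhom]; linarith
  have e3 : 0 < (rho + ((p : ℝ) - 0)) * (((p : ℝ) - 0) * (T - m) - rho * m) - ((p : ℝ) - 0) := by
    rw [sub_zero, ← ha, hrhom]
    have h1 : (rho1 + p) * c < (rho + p) * c := mul_lt_mul_of_pos_right (by linarith) hc0
    have h2 : a - (a - c) = c := by ring
    rw [h2]
    linarith
  have e4 : 0 < rho * T + ((p : ℝ) - 0) * (T - m) - (m + 1) := by
    rw [sub_zero, ← ha]
    have h1 : 0 < (rho * T + a - (m + 1)) * m := by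
      have h2 : (rho * T + a - (m + 1)) * m = (rho * m) * T + a * m - (m + 1) * m := by ring
      rw [h2, hrhom]
      nlinarith
    exact pos_of_mul_pos_left h1 hm0.le
  have c2 : Continuous fun eta : ℝ => ((p : ℝ) - eta) * (T - m) - rho * m := by fun_prop
  have c3 : Continuous fun eta : ℝ =>
      (rho + ((p : ℝ) - eta)) * (((p : ℝ) - eta) * (T - m) - rho * m) - ((p : ℝ) - eta) := by fun_prop
  have c4 : Continuous fun eta : ℝ => rho * T + ((p : ℝ) - eta) * (T - m) - (m + 1) := by fun_prop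
  have ev : ∀ᶠ eta in 𝓝[>] (0 : ℝ), 0 < ((p : ℝ) - eta) * (T - m) - rho * m ∧
      0 < (rho + ((p : ℝ) - eta)) * (((p : ℝ) - eta) * (T - m) - rho * m) - ((p : ℝ) - eta) ∧
      0 < rho * T + ((p : ℝ) - eta) * (T - m) - (m + 1) ∧ eta < p := by
    have v2 := (c2.tendsto 0).eventually (eventually_gt_nhds e2)
    have v3 := (c3.tendsto 0).eventually (eventually_gt_nhds e3)
    have v4 := (c4.tendsto 0).eventually (eventually_gt_nhds e4)
    have v5 : ∀ᶠ eta in 𝓝 (0 : ℝ), eta < (p : ℝ) := eventually_lt_nhds (by linarith)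
    exact nhdsWithin_le_nhds (v2.and (v3.and (v4.and v5)))
  obtain ⟨u, hu, hsub⟩ := mem_nhdsGT_iff_exists_Ioo_subset.mp ev
  have hd := (bad_countable k r d m (1 - rho) (by omega) hkm).dense_compl ℝ
  obtain ⟨eta, heta1, heta2⟩ := hd.exists_mem_open isOpen_Ioo (Set.nonempty_Ioo.mpr hu)
  obtain ⟨f2, f3, f4, f5⟩ := hsub heta2
  refine ⟨rho, eta, hrho0, heta2.1, f5, ?_, ?_, ?_, ?_⟩
  · linarith
  · linarith
  · linarith
  · intro j hj l n hn
    exact heta1 ⟨j, hj, l, n, hn⟩

end Pool.Agent.Helper54.Nag.LPR
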